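import Mathlib

/-!
# MP_d49380_lc: infinite log-concavity of the coefficients of a constant over a cubic polynomial
-/

set_option autoImplicit false

namespace Pool.Agent.Results.MP_d49380_lc.CubicGeneratingFunction

/-- The log-concavity operator `a_n ↦ a_n ^ 2 - a_{n-1} a_{n+1}`, with `a_{-1} = 0`. -/
def L (b : ℕ → ℚ) (m : ℕ) : ℚ := b m ^ 2 - (if m = 0 then 0 else b (m - 1)) * b (m + 1)

/-- `a` is infinitely log-concave. -/
def InfLogConcave (a : ℕ → ℚ) : Prop := ∀ i n : ℕ, 0 ≤ L^[i] a n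

section order3

variable (a : ℕ → ℚ) (c0 c1 c2 : ℚ)

theorem det3 (h1 : a 1 = c2 * a 0) (h2 : a 2 = c2 * a 1 + c1 * a 0)
    (h : ∀ n, a (n + 3) = c2 * a (n + 2) + c1 * a (n + 1) + c0 * a n) (n : ℕ) :
    a (n + 2) * (a (n + 2) * a (n + 2) - a (n + 3) * a (n + 1))
      - a (n + 3) * (a (n + 1) * a (n + 2) - a (n + 3) * a n)
      + a (n + 4) * (a (n + 1) * a (n + 1) - a (n + 2) * a n) = a 0 ^ 3 * c0 ^ (n + 2) := by
  induction n with
  | zero =>
    have e3 := h 0
    have e4 := h 1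
    simp only [zero_add] at e3 e4 ⊢
    rw [show (1 : ℕ) + 3 = 4 from rfl, show (1 : ℕ) + 2 = 3 from rfl,
      show (1 : ℕ) + 1 = 2 from rfl] at e4
    rw [e4, e3, h2, h1]
    ring
  | succ n ih =>
    have e1 := h (n + 2)
    have e2 := h (n + 1)
    have e3 := h n
    rw [show n + 2 + 3 = n + 5 by omega, show n + 2 + 2 = n + 4 by omega,
      show n + 2 + 1 = n + 3 by omega] at e1
    rw [show n + 1 + 3 = n + 4 by omega, show n + 1 + 2 = n + 3 by omega,
      show n + 1 + 1 = n + 2 by omega] at e2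
    have e4 : a 0 ^ 3 * c0 ^ (n + 1 + 2) = c0 * (a 0 ^ 3 * c0 ^ (n + 2)) := by ring
    rw [show n + 1 + 3 = n + 4 by omega, e4, ← ih, show n + 1 + 4 = n + 5 by omega,
      show n + 1 + 2 = n + 3 by omega, show n + 1 + 1 = n + 2 by omega, e1, e2, e3]
    ring

theorem L_zero (b : ℕ → ℚ) : L b 0 = b 0 ^ 2 := by
  unfold L; rw [if_pos rfl]; ring

theorem L_succ (b : ℕ → ℚ) (n : ℕ) : L b (n + 1) = b (n + 1) ^ 2 - b n * b (n + 2) := by
  unfold L; rw [if_neg (by omega), show n + 1 - 1 = n by omega]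

theorem LL3 (h1 : a 1 = c2 * a 0) (h2 : a 2 = c2 * a 1 + c1 * a 0)
    (h : ∀ n, a (n + 3) = c2 * a (n + 2) + c1 * a (n + 1) + c0 * a n) (n : ℕ) :
    L (L a) n = a 0 ^ 3 * c0 ^ n * a n := by
  match n with
  | 0 => rw [L_zero, L_zero]; ring
  | 1 =>
    have k0 := L_zero a
    have k1 := L_succ a 0
    have k2 := L_succ a 1
    have k := L_succ (L a) 0
    have e3 := h 0
    simp only [zero_add] at k k1 e3
    rw [show (1 : ℕ) + 1 = 2 from rfl, show (1 : ℕ) + 2 = 3 from rfl] at k2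
    rw [k, k0, k1, k2, e3, h2, h1]
    ring
  | n + 2 =>
    have k := L_succ (L a) (n + 1)
    have k1 := L_succ a n
    have k2 := L_succ a (n + 1)
    have k3 := L_succ a (n + 2)
    rw [show n + 1 + 1 = n + 2 by omega, show n + 1 + 2 = n + 2 + 1 by omega] at k
    rw [show n + 1 + 1 = n + 2 by omega, show n + 1 + 2 = n + 3 by omega] at k2
    rw [show n + 2 + 1 = n + 3 by omega, show n + 2 + 2 = n + 4 by omega] at k3
    rw [k, k1, k2, show n + 2 + 1 = n + 3 by omega, k3, ← det3 a c0 c1 c2 h1 h2 h n]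
    ring

theorem L_scale (k r : ℚ) (b : ℕ → ℚ) :
    L (fun n => k * r ^ n * b n) = fun n => k ^ 2 * (r ^ 2) ^ n * L b n := by
  funext n
  cases n with
  | zero =>
    unfold L
    simp only [if_true]
    ring
  | succ n =>
    unfold L
    rw [if_neg (by omega), if_neg (by omega), show n + 1 - 1 = n by omega]
    ring

theorem iter3 (h1 : a 1 = c2 * a 0) (h2 : a 2 = c2 * a 1 + c1 * a 0)
    (h : ∀ n, a (n + 3) = c2 * a (n + 2) + c1 * a (n + 1) + c0 * a n) (i : ℕ) :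
    L^[i + 2] a = fun n => (a 0 ^ 3) ^ (2 ^ i) * (c0 ^ (2 ^ i)) ^ n * L^[i] a n := by
  induction i with
  | zero =>
    funext n
    have := LL3 a c0 c1 c2 h1 h2 h n
    simpa using this
  | succ i ih =>
    rw [show i + 1 + 2 = (i + 2) + 1 by omega, Function.iterate_succ_apply', ih, L_scale]
    funext n
    rw [Function.iterate_succ_apply', ← pow_mul, ← pow_mul c0, ← pow_succ]

/-- **Third order recurrences with `a_{-1} = a_{-2} = 0`**, that is, with generating function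
`a_0 / (1 - c2 x - c1 x^2 - c0 x^3)`. -/
theorem criterion3 (h1 : a 1 = c2 * a 0) (h2 : a 2 = c2 * a 1 + c1 * a 0)
    (h : ∀ n, a (n + 3) = c2 * a (n + 2) + c1 * a (n + 1) + c0 * a n) :
    InfLogConcave a ↔ ∀ n, 0 ≤ a n ∧ 0 ≤ L a n ∧ 0 ≤ a 0 ^ 3 * c0 ^ n * a n := by
  constructor
  · intro hi n
    refine ⟨by simpa using hi 0 n, by simpa using hi 1 n, ?_⟩
    rw [← LL3 a c0 c1 c2 h1 h2 h n]
    exact hi 2 n
  · intro hn i
    induction i using Nat.strong_induction_on with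
    | _ i ih =>
      intro n
      match i with
      | 0 => simpa using (hn n).1
      | 1 => simpa using (hn n).2.1
      | 2 =>
        have := (hn n).2.2
        rw [← LL3 a c0 c1 c2 h1 h2 h n] at this
        exact this
      | i + 3 =>
        rw [show i + 3 = (i + 1) + 2 by omega, iter3 a c0 c1 c2 h1 h2 h (i + 1)]
        have k1 : 0 ≤ (a 0 ^ 3) ^ (2 ^ (i + 1)) := by
          exact (Nat.even_pow.2 ⟨even_two, by omega⟩).pow_nonneg _
        have k2 : 0 ≤ c0 ^ (2 ^ (i + 1)) := by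
          exact (Nat.even_pow.2 ⟨even_two, by omega⟩).pow_nonneg _
        exact mul_nonneg (mul_nonneg k1 (pow_nonneg k2 n)) (ih (i + 1) (by omega) n)

end order3

/-- A rational sequence with generating function `a_0 / (1 - c2 x - c1 x ^ 2 - c0 x ^ 3)` is
infinitely log-concave if and only if `a_n ≥ 0`, `L(a)_n ≥ 0` and `a_0 ^ 3 c0 ^ n a_n ≥ 0` for
all `n`. -/
theorem result :
    ∀ (a : ℕ → ℚ) (c0 c1 c2 : ℚ), a 1 = c2 * a 0 → a 2 = c2 * a 1 + c1 * a 0 →
      (∀ n, a (n + 3) = c2 * a (n + 2) + c1 * a (n + 1) + c0 * a n) →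
      (InfLogConcave a ↔ ∀ n, 0 ≤ a n ∧ 0 ≤ L a n ∧ 0 ≤ a 0 ^ 3 * c0 ^ n * a n) :=
  criterion3

end Pool.Agent.Results.MP_d49380_lc.CubicGeneratingFunction
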