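import Mathlib

/-!
# MP_d49380_lc: the cubic refinement of a positive sequence is infinitely log-concave if and only if the sequence is log-concave
-/

set_option autoImplicit false

namespace Pool.Agent.Results.MP_d49380_lc.CubicRefinement

/-- The log-concavity operator `a_n ↦ a_n ^ 2 - a_{n-1} a_{n+1}`, with `a_{-1} = 0`. -/
def L (b : ℕ → ℚ) (m : ℕ) : ℚ := b m ^ 2 - (if m = 0 then 0 else b (m - 1)) * b (m + 1)

/-- `a` is infinitely log-concave. -/
def InfLogConcave (a : ℕ → ℚ) : Prop := ∀ i n : ℕ, 0 ≤ L^[i] a n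

/-- The interleaving of a rational sequence with two zero sequences. -/
def interQ (w : ℕ → ℚ) (m : ℕ) : ℚ := if m % 3 = 0 then w (m / 3) else 0

theorem L_interQ (w : ℕ → ℚ) : L (interQ w) = interQ (fun n => w n ^ 2) := by
  funext m
  unfold L interQ
  rcases (show m % 3 = 0 ∨ m % 3 = 1 ∨ m % 3 = 2 by omega) with h | h | h
  · rw [if_pos h, if_pos h, if_neg (show ¬ (m + 1) % 3 = 0 by omega)]
    ring
  · rw [if_neg (show ¬ m % 3 = 0 by omega), if_neg (show ¬ (m + 1) % 3 = 0 by omega),
      if_neg (show ¬ m % 3 = 0 by omega)]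
    ring
  · rw [if_neg (show ¬ m % 3 = 0 by omega), if_neg (show ¬ m = 0 by omega),
      if_neg (show ¬ (m - 1) % 3 = 0 by omega), if_neg (show ¬ m % 3 = 0 by omega)]
    ring

theorem iter_interQ (w : ℕ → ℚ) (i : ℕ) : L^[i] (interQ w) = interQ (fun n => w n ^ (2 ^ i)) := by
  induction i with
  | zero => simp
  | succ i ih =>
    rw [Function.iterate_succ_apply', ih, L_interQ]
    congr 1
    funext n
    rw [← pow_mul, pow_succ]

/-- The cubic refinement of a sequence: between `B_m ^ 3` and `B_{m+1} ^ 3` one puts the terms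
`B_m ^ 2 B_{m+1}` and `B_m B_{m+1} ^ 2`. -/
def refinement (B : ℕ → ℚ) (n : ℕ) : ℚ := B (n / 3) ^ (3 - n % 3) * B (n / 3 + 1) ^ (n % 3)

theorem refinement0 (B : ℕ → ℚ) (m : ℕ) : refinement B (3 * m) = B m ^ 3 := by
  unfold refinement
  rw [show 3 * m / 3 = m by omega, show 3 * m % 3 = 0 by omega]
  simp

theorem refinement1 (B : ℕ → ℚ) (m : ℕ) : refinement B (3 * m + 1) = B m ^ 2 * B (m + 1) := by
  unfold refinement
  rw [show (3 * m + 1) / 3 = m by omega, show (3 * m + 1) % 3 = 1 by omega]
  simp

theorem refinement2 (B : ℕ → ℚ) (m : ℕ) : refinement B (3 * m + 2) = B m * B (m + 1) ^ 2 := by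
  unfold refinement
  rw [show (3 * m + 2) / 3 = m by omega, show (3 * m + 2) % 3 = 2 by omega]
  simp

/-- The values at multiples of three of the first iterate of the refinement. -/
def low (B : ℕ → ℚ) : ℕ → ℚ
  | 0 => B 0 ^ 6
  | m + 1 => B (m + 1) ^ 4 * (B (m + 1) ^ 2 - B m * B (m + 2))

theorem L_refinement (B : ℕ → ℚ) : L (refinement B) = interQ (low B) := by
  funext n
  obtain ⟨m, hm⟩ : ∃ m, n = 3 * m ∨ n = 3 * m + 1 ∨ n = 3 * m + 2 := ⟨n / 3, by omega⟩
  rcases hm with rfl | rfl | rfl
  · have e : interQ (low B) (3 * m) = low B m := by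
      unfold interQ
      rw [if_pos (by omega), show 3 * m / 3 = m by omega]
    rw [e]
    cases m with
    | zero =>
      show refinement B (3 * 0) ^ 2 - (if 3 * 0 = 0 then 0 else _) * _ = B 0 ^ 6
      rw [refinement0]
      simp only [mul_zero, if_true, zero_mul, sub_zero]
      ring
    | succ m =>
      show refinement B (3 * (m + 1)) ^ 2 - (if 3 * (m + 1) = 0 then 0
        else refinement B (3 * (m + 1) - 1)) * refinement B (3 * (m + 1) + 1) = _
      rw [if_neg (by omega), show 3 * (m + 1) - 1 = 3 * m + 2 by omega, refinement0, refinement1,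
        refinement2]
      unfold low
      ring
  · have e : interQ (low B) (3 * m + 1) = 0 := by
      unfold interQ
      rw [if_neg (by omega)]
    rw [e]
    show refinement B (3 * m + 1) ^ 2 - (if 3 * m + 1 = 0 then 0
      else refinement B (3 * m + 1 - 1)) * refinement B (3 * m + 1 + 1) = 0
    rw [if_neg (by omega), show 3 * m + 1 - 1 = 3 * m by omega,
      show 3 * m + 1 + 1 = 3 * m + 2 by omega, refinement0, refinement1, refinement2]
    ring
  · have e : interQ (low B) (3 * m + 2) = 0 := by
      unfold interQ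
      rw [if_neg (by omega)]
    rw [e]
    show refinement B (3 * m + 2) ^ 2 - (if 3 * m + 2 = 0 then 0
      else refinement B (3 * m + 2 - 1)) * refinement B (3 * m + 2 + 1) = 0
    rw [if_neg (by omega), show 3 * m + 2 - 1 = 3 * m + 1 by omega,
      show 3 * m + 2 + 1 = 3 * (m + 1) by omega, refinement0, refinement1, refinement2]
    ring

/-- For a positive sequence `B`, the refinement is positive, and it is infinitely log-concave if
and only if `B` is log-concave. -/
theorem refinement_iff (B : ℕ → ℚ) (hB : ∀ m, 0 < B m) :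
    (∀ n, 0 < refinement B n) ∧
    (InfLogConcave (refinement B) ↔ ∀ m, B m * B (m + 2) ≤ B (m + 1) ^ 2) := by
  have hpos : ∀ n, 0 < refinement B n := by
    intro n
    unfold refinement
    exact mul_pos (pow_pos (hB _) _) (pow_pos (hB _) _)
  refine ⟨hpos, ?_, ?_⟩
  · intro h m
    have k := h 1 (3 * (m + 1))
    rw [Function.iterate_one, L_refinement] at k
    unfold interQ at k
    rw [if_pos (by omega), show 3 * (m + 1) / 3 = m + 1 by omega] at k
    have k' : 0 ≤ B (m + 1) ^ 4 * (B (m + 1) ^ 2 - B m * B (m + 2)) := k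
    have k'' := nonneg_of_mul_nonneg_right k' (pow_pos (hB (m + 1)) 4)
    linarith
  · intro h i n
    cases i with
    | zero => exact (hpos n).le
    | succ i =>
      rw [Function.iterate_succ_apply, L_refinement, iter_interQ]
      unfold interQ
      split_ifs
      · refine pow_nonneg ?_ _
        cases n / 3 with
        | zero => exact (pow_pos (hB 0) 6).le
        | succ m =>
          have := h m
          exact mul_nonneg (pow_pos (hB (m + 1)) 4).le (by linarith)
      · exact le_rfl

/-- For every positive sequence `B` its cubic refinement (`B_m ^ 3`, `B_m ^ 2 B_{m+1}`,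
`B_m B_{m+1} ^ 2`, `B_{m+1} ^ 3`, …) is positive, and it is infinitely log-concave if and only if
`B` is log-concave. -/
theorem result :
    ∀ B : ℕ → ℚ, (∀ m, 0 < B m) → (∀ n, 0 < refinement B n) ∧
    (InfLogConcave (refinement B) ↔ ∀ m, B m * B (m + 2) ≤ B (m + 1) ^ 2) :=
  refinement_iff

end Pool.Agent.Results.MP_d49380_lc.CubicRefinement
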