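import Mathlib

/-!
# MP_d49380_lc: infinite log-concavity of sequences with a constant-coefficient recurrence of order two
-/

set_option autoImplicit false

namespace Pool.Agent.Results.MP_d49380_lc.OrderTwo

/-- The log-concavity operator `a_n ↦ a_n ^ 2 - a_{n-1} a_{n+1}`, with `a_{-1} = 0`. -/
def L (b : ℕ → ℚ) (m : ℕ) : ℚ := b m ^ 2 - (if m = 0 then 0 else b (m - 1)) * b (m + 1)

/-- `a` is infinitely log-concave. -/
def InfLogConcave (a : ℕ → ℚ) : Prop := ∀ i n : ℕ, 0 ≤ L^[i] a n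

section order2

variable (a : ℕ → ℚ) (c0 c1 : ℚ)

theorem cassini (h : ∀ n, a (n + 2) = c1 * a (n + 1) + c0 * a n) (n : ℕ) :
    L a (n + 1) = (-c0) ^ n * (a 1 ^ 2 - a 0 * a 2) := by
  induction n with
  | zero =>
    unfold L
    simp
  | succ n ih =>
    have e1 : L a (n + 1 + 1) = -c0 * L a (n + 1) := by
      unfold L
      rw [if_neg (by omega), if_neg (by omega)]
      have h1 := h (n + 1)
      have h2 := h n
      rw [show n + 1 + 1 - 1 = n + 1 by omega, show n + 1 - 1 = n by omega,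
        show n + 1 + 1 + 1 = n + 1 + 2 by omega, h1, show n + 1 + 1 = n + 2 by omega, h2]
      ring
    rw [e1, ih, pow_succ]
    ring

/-- The shape of the second iterate and of the later ones. -/
def Tail (b : ℕ → ℚ) : Prop := (0 ≤ b 0) ∧ (0 ≤ b 1) ∧ ∀ n, b (n + 2) = 0

theorem tail_L (b : ℕ → ℚ) (hb : Tail b) : Tail (L b) := by
  obtain ⟨h0, h1, h2⟩ := hb
  refine ⟨?_, ?_, ?_⟩
  · unfold L
    simp only [if_true]
    nlinarith [sq_nonneg (b 0)]
  · unfold L
    have := h2 0
    simp only [zero_add] at this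
    rw [if_neg (by norm_num)]
    norm_num
    rw [this]
    nlinarith [sq_nonneg (b 1)]
  · intro n
    unfold L
    rw [if_neg (by omega), show n + 2 - 1 = n + 1 by omega, h2 n]
    have := h2 (n + 1)
    rw [show n + 1 + 2 = n + 2 + 1 by omega] at this
    rw [this]
    ring

theorem tail_nonneg (b : ℕ → ℚ) (hb : Tail b) (n : ℕ) : 0 ≤ b n := by
  obtain ⟨h0, h1, h2⟩ := hb
  match n with
  | 0 => exact h0
  | 1 => exact h1
  | n + 2 => exact (h2 n).ge

theorem tail_iter (b : ℕ → ℚ) (hb : Tail b) (i : ℕ) : Tail (L^[i] b) := by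
  induction i with
  | zero => simpa using hb
  | succ i ih =>
    rw [Function.iterate_succ_apply']
    exact tail_L _ ih

/-- Infinite log-concavity for second order constant-coefficient recurrences in terms of the
first two iterates. -/
theorem ilc_order2 (h : ∀ n, a (n + 2) = c1 * a (n + 1) + c0 * a n) :
    InfLogConcave a ↔ (∀ n, 0 ≤ a n) ∧
      (∀ n : ℕ, 0 ≤ (-c0) ^ n * (a 1 ^ 2 - a 0 * a 2)) ∧
      0 ≤ (a 1 ^ 2 - a 0 * a 2) * (a 1 * (a 1 - c1 * a 0)) := by
  have hL0 : L a 0 = a 0 ^ 2 := by unfold L; simp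
  have hL2 : Tail (L (L a)) ↔ 0 ≤ (a 1 ^ 2 - a 0 * a 2) * (a 1 * (a 1 - c1 * a 0)) := by
    have e0 : L (L a) 0 = a 0 ^ 4 := by
      show L a 0 ^ 2 - (if (0 : ℕ) = 0 then 0 else L a (0 - 1)) * L a (0 + 1) = a 0 ^ 4
      rw [if_pos rfl, hL0]; ring
    have e1 : L (L a) 1 = (a 1 ^ 2 - a 0 * a 2) * (a 1 * (a 1 - c1 * a 0)) := by
      show L a 1 ^ 2 - (if (1 : ℕ) = 0 then 0 else L a (1 - 1)) * L a (1 + 1) = _
      rw [if_neg (by norm_num), Nat.sub_self, hL0]
      have k1 := cassini a c0 c1 h 0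
      have k2 := cassini a c0 c1 h 1
      simp only [zero_add, pow_zero, one_mul, pow_one] at k1 k2
      rw [show (1 : ℕ) + 1 = 1 + 1 from rfl, k2, k1]
      have h0 := h 0
      simp only [zero_add] at h0
      rw [h0]
      ring
    have e2 : ∀ n, L (L a) (n + 2) = 0 := by
      intro n
      show L a (n + 2) ^ 2 - (if n + 2 = 0 then 0 else L a (n + 2 - 1)) * L a (n + 2 + 1) = 0
      rw [if_neg (by omega), show n + 2 - 1 = n + 1 by omega]
      have k1 := cassini a c0 c1 h n
      have k2 := cassini a c0 c1 h (n + 1)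
      have k3 := cassini a c0 c1 h (n + 2)
      rw [show n + 2 = n + 1 + 1 by omega, k2, k1, show n + 1 + 1 + 1 = n + 2 + 1 by omega, k3]
      ring
    constructor
    · intro ht
      rw [← e1]; exact ht.2.1
    · intro ht
      exact ⟨by rw [e0]; positivity, by rw [e1]; exact ht, e2⟩
  constructor
  · intro hi
    refine ⟨fun n => by simpa using hi 0 n, fun n => ?_, ?_⟩
    · rw [← cassini a c0 c1 h n]
      simpa using hi 1 (n + 1)
    · rw [← hL2]
      have e0 : L (L a) 0 = L^[2] a 0 := rfl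
      refine ⟨hi 2 0, hi 2 1, ?_⟩
      intro n
      show L a (n + 2) ^ 2 - (if n + 2 = 0 then 0 else L a (n + 2 - 1)) * L a (n + 2 + 1) = 0
      rw [if_neg (by omega), show n + 2 - 1 = n + 1 by omega]
      have k1 := cassini a c0 c1 h n
      have k2 := cassini a c0 c1 h (n + 1)
      have k3 := cassini a c0 c1 h (n + 2)
      rw [show n + 2 = n + 1 + 1 by omega, k2, k1, show n + 1 + 1 + 1 = n + 2 + 1 by omega, k3]
      ring
  · rintro ⟨h0, h1, h2⟩ i n
    match i with
    | 0 => simpa using h0 n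
    | 1 =>
      show 0 ≤ L a n
      cases n with
      | zero => rw [hL0]; positivity
      | succ n => rw [cassini a c0 c1 h n]; exact h1 n
    | i + 2 =>
      have := tail_iter _ (hL2.2 h2) i
      have e : L^[i + 2] a = L^[i] (L (L a)) := by
        rw [Function.iterate_add_apply]
        rfl
      rw [e]
      exact tail_nonneg _ this n


theorem nonneg_of_geom (h : ∀ n, a (n + 2) = c1 * a (n + 1) + c0 * a n)
    (h0 : 0 ≤ a 0) (h1 : 0 ≤ a 1) (hg : a 1 ^ 2 = a 0 * a 2) (n : ℕ) : 0 ≤ a n := by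
  have h2 := h 0
  simp only [zero_add] at h2
  rcases h0.eq_or_lt with e | e
  · have e1 : a 1 = 0 := by
      have : a 1 ^ 2 = 0 := by rw [hg, ← e]; ring
      exact pow_eq_zero_iff (by norm_num) |>.1 this
    have : ∀ n, a n = 0 ∧ a (n + 1) = 0 := by
      intro n
      induction n with
      | zero => exact ⟨e.symm, e1⟩
      | succ n ih => exact ⟨ih.2, by rw [show n + 1 + 1 = n + 2 by omega, h n, ih.1, ih.2]; ring⟩
    exact (this n).1.ge
  · obtain ⟨r, hr⟩ : ∃ r, a 1 = a 0 * r := ⟨a 1 / a 0, by field_simp⟩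
    have hr0 : 0 ≤ r := by
      by_contra hc
      push Not at hc
      nlinarith
    have hq : r ^ 2 = c1 * r + c0 := by
      have : a 0 ^ 2 * (r ^ 2 - (c1 * r + c0)) = 0 := by
        rw [h2, hr] at hg
        linear_combination hg
      rcases mul_eq_zero.1 this with k | k
      · exact absurd (pow_eq_zero_iff (by norm_num) |>.1 k) e.ne'
      · linarith
    have : ∀ n, a n = a 0 * r ^ n ∧ a (n + 1) = a 0 * r ^ (n + 1) := by
      intro n
      induction n with
      | zero => exact ⟨by simp, by simpa using hr⟩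
      | succ n ih =>
        refine ⟨ih.2, ?_⟩
        rw [show n + 1 + 1 = n + 2 by omega, h n, ih.1, ih.2]
        have : r ^ (n + 2) = r ^ n * (c1 * r + c0) := by rw [← hq]; ring
        rw [this]
        ring
    rw [(this n).1]
    positivity

theorem nonneg_of_real (h : ∀ n, a (n + 2) = c1 * a (n + 1) + c0 * a n)
    (h0 : 0 ≤ a 0) (k1 : 0 ≤ c1) (k2 : 0 ≤ c1 ^ 2 + 4 * c0)
    (k3 : c1 * a 0 ≤ a 1) (n : ℕ) : 0 ≤ a n := by
  have : ∀ n, 0 ≤ a n ∧ c1 / 2 * a n ≤ a (n + 1) := by
    intro n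
    induction n with
    | zero =>
      refine ⟨h0, ?_⟩
      have : 0 ≤ c1 * a 0 := mul_nonneg k1 h0
      simp only [zero_add]
      linarith
    | succ n ih =>
      obtain ⟨i1, i2⟩ := ih
      have i3 : 0 ≤ a (n + 1) := le_trans (by positivity) i2
      refine ⟨i3, ?_⟩
      rw [show n + 1 + 1 = n + 2 by omega, h n]
      have j1 : -(c1 ^ 2 / 4) * a n ≤ c0 * a n := by
        apply mul_le_mul_of_nonneg_right _ i1
        linarith
      have j2 : c1 / 2 * (c1 / 2 * a n) ≤ c1 / 2 * a (n + 1) :=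
        mul_le_mul_of_nonneg_left i2 (by positivity)
      nlinarith
  exact (this n).1

theorem disc_nonneg (h : ∀ n, a (n + 2) = c1 * a (n + 1) + c0 * a n)
    (hp : ∀ n, 0 ≤ a n) (h1 : 0 < a 1) : 0 ≤ c1 ^ 2 + 4 * c0 := by
  by_contra hc
  push Not at hc
  have hc0 : c0 < 0 := by nlinarith [sq_nonneg c1]
  have hpos : ∀ n, 0 < a (n + 1) := by
    intro n
    induction n with
    | zero => simpa using h1
    | succ n ih =>
      rcases (hp (n + 1 + 1)).eq_or_lt with e | e
      · exfalso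
        have k := h (n + 1)
        rw [← e] at k
        have k' := hp (n + 1 + 2)
        rw [k] at k'
        nlinarith
      · exact e
  set δ : ℚ := -c0 - c1 ^ 2 / 4 with hδ
  have hδ0 : 0 < δ := by rw [hδ]; linarith
  set r : ℕ → ℚ := fun n => a (n + 2) / a (n + 1) with hr
  have hr0 : ∀ n, 0 < r n := fun n => div_pos (hpos (n + 1)) (hpos n)
  have hstep : ∀ n, r (n + 1) ≤ r n - δ / r n := by
    intro n
    have e1 : r (n + 1) = c1 + c0 / r n := by
      have h3 := h (n + 1)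
      have p1 := (hpos n).ne'
      have p2 : a (n + 2) ≠ 0 := (hpos (n + 1)).ne'
      have e : r (n + 1) = a (n + 1 + 2) / a (n + 2) := rfl
      rw [e, h3, show n + 1 + 1 = n + 2 by omega]
      have e' : r n = a (n + 2) / a (n + 1) := rfl
      rw [e']
      field_simp
    have hrn := hr0 n
    rw [e1, ← sub_nonneg]
    have e2 : r n - δ / r n - (c1 + c0 / r n) = (r n - c1 / 2) ^ 2 / r n := by
      rw [hδ]
      field_simp
      ring
    rw [e2]
    positivity
  have hle : ∀ n, r n ≤ r 0 - n * (δ / r 0) := by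
    intro n
    induction n with
    | zero => simp
    | succ n ih =>
      have k1 : r n ≤ r 0 := by
        have : 0 ≤ (n : ℚ) * (δ / r 0) := mul_nonneg (by positivity) (div_nonneg hδ0.le (hr0 0).le)
        linarith
      have k2 : δ / r 0 ≤ δ / r n := div_le_div_of_nonneg_left hδ0.le (hr0 n) k1
      have k3 := hstep n
      push_cast
      nlinarith
  obtain ⟨N, hN⟩ := exists_nat_gt (r 0 / (δ / r 0))
  have hd : 0 < δ / r 0 := div_pos hδ0 (hr0 0)
  have k1 := hle N
  have k2 : r 0 < N * (δ / r 0) := by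
    rwa [div_lt_iff₀ hd] at hN
  have k3 := hr0 N
  linarith

/-- **Criterion for second order constant-coefficient recurrences.** -/
theorem criterion (h : ∀ n, a (n + 2) = c1 * a (n + 1) + c0 * a n) :
    InfLogConcave a ↔ 0 ≤ a 0 ∧ 0 ≤ a 1 ∧ (a 1 ^ 2 = a 0 * a 2 ∨
      (0 < a 1 ∧ c0 ≤ 0 ∧ 0 ≤ c1 ∧ 0 ≤ c1 ^ 2 + 4 * c0 ∧ c1 * a 0 ≤ a 1)) := by
  rw [ilc_order2 a c0 c1 h]
  have h2 := h 0
  simp only [zero_add] at h2
  constructor
  · rintro ⟨hp, hq, ht⟩
    refine ⟨hp 0, hp 1, ?_⟩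
    have g0 := hq 0
    rw [pow_zero, one_mul] at g0
    rcases g0.eq_or_lt with e | e
    · left; linarith
    · right
      have k0 : c0 ≤ 0 := by
        have := hq 1
        rw [pow_one] at this
        by_contra hc
        push Not at hc
        nlinarith
      have k1 : 0 < a 1 := by
        rcases (hp 1).eq_or_lt with e1 | e1
        · exfalso
          rw [← e1] at e
          have := mul_nonneg (hp 0) (hp 2)
          linarith
        · exact e1
      have k2 : 0 ≤ a 1 * (a 1 - c1 * a 0) := by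
        by_contra hc
        push Not at hc
        have := mul_neg_of_pos_of_neg e hc
        linarith
      have k3 : c1 * a 0 ≤ a 1 := by
        by_contra hc
        push Not at hc
        have := mul_neg_of_pos_of_neg k1 (show a 1 - c1 * a 0 < 0 by linarith)
        linarith
      have k4 : 0 ≤ c1 := by
        by_contra hc
        push Not at hc
        have j1 := hp 2
        rw [h2] at j1
        have j2 := mul_neg_of_neg_of_pos hc k1
        have j3 := mul_nonpos_of_nonpos_of_nonneg k0 (hp 0)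
        linarith
      exact ⟨k1, k0, k4, disc_nonneg a c0 c1 h hp k1, k3⟩
  · rintro ⟨h0, h1, hg | ⟨k1, k0, k4, k5, k3⟩⟩
    · refine ⟨nonneg_of_geom a c0 c1 h h0 h1 hg, fun n => ?_, ?_⟩
      · rw [hg]; simp
      · rw [hg]; simp
    · have g0 : 0 ≤ a 1 ^ 2 - a 0 * a 2 := by
        have e : a 1 ^ 2 - a 0 * a 2 = a 1 * (a 1 - c1 * a 0) + (-c0) * a 0 ^ 2 := by
          rw [h2]; ring
        rw [e]
        have j1 : 0 ≤ a 1 * (a 1 - c1 * a 0) := mul_nonneg h1 (by linarith)
        have j2 : 0 ≤ (-c0) * a 0 ^ 2 := mul_nonneg (by linarith) (by positivity)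
        linarith
      refine ⟨nonneg_of_real a c0 c1 h h0 k4 k5 k3, fun n => ?_, ?_⟩
      · exact mul_nonneg (pow_nonneg (by linarith) n) g0
      · exact mul_nonneg g0 (mul_nonneg h1 (by linarith))

end order2

/-- A rational sequence with `a_{n+2} = c1 a_{n+1} + c0 a_n` for all `n` is infinitely
log-concave if and only if `a_0, a_1 ≥ 0` and either `a_1 ^ 2 = a_0 a_2`, or `a_1 > 0`,
`c0 ≤ 0 ≤ c1`, `c1 ^ 2 + 4 c0 ≥ 0` and `a_1 ≥ c1 a_0`. -/
theorem result :
    ∀ (a : ℕ → ℚ) (c0 c1 : ℚ), (∀ n, a (n + 2) = c1 * a (n + 1) + c0 * a n) →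
      (InfLogConcave a ↔ 0 ≤ a 0 ∧ 0 ≤ a 1 ∧ (a 1 ^ 2 = a 0 * a 2 ∨
        (0 < a 1 ∧ c0 ≤ 0 ∧ 0 ≤ c1 ∧ 0 ≤ c1 ^ 2 + 4 * c0 ∧ c1 * a 0 ≤ a 1))) :=
  criterion

end Pool.Agent.Results.MP_d49380_lc.OrderTwo
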