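import Mathlib
import Pool.Agent.Y926.Ent.IntPrim

/-!
# MP_d49380_lc: deciding infinite log-concavity is at least as hard as deciding positivity
-/

set_option autoImplicit false

namespace Pool.Agent.Results.MP_d49380_lc.PositivityReduction

/-- The value at `n` of the polynomial with coefficient list `p` (constant term first). -/
def evalAt (p : List ℤ) (n : ℕ) : ℚ :=
  p.foldr (fun (c : ℤ) (acc : ℚ) => (c : ℚ) + (n : ℚ) * acc) 0

/-- An input of Q1, as in the frozen statement: the coefficient polynomials `p_0, …, p_d` of the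
recurrence (integer coefficient lists) and initial values (numerator, denominator minus one). -/
abbrev Input := List (List ℤ) × List (ℤ × ℕ)

/-- The order `d` of the input. -/
def Input.order (x : Input) : ℕ := x.1.length - 1

/-- `a` is a sequence described by the input `x`: it satisfies the recurrence
`∑_{j ≤ d} p_j(n) a_{n+j} = 0` for all `n` and has the given initial values. -/
def Describes (x : Input) (a : ℕ → ℚ) : Prop :=
  (∀ n : ℕ, ∑ j ∈ Finset.range x.1.length, evalAt (x.1.getD j []) n * a (n + j) = 0) ∧
  ∀ k : ℕ, k < x.2.length →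
    a k = ((x.2.getD k (0, 0)).1 : ℚ) / (((x.2.getD k (0, 0)).2 : ℚ) + 1)

/-- The input is proper, as in the problem: the leading coefficient polynomial `p_d` has no zero
among the natural numbers, and there are exactly `d` initial values. -/
def Proper (x : Input) : Prop :=
  x.1 ≠ [] ∧ (∀ n : ℕ, evalAt (x.1.getD x.order []) n ≠ 0) ∧ x.2.length = x.order

/-- The input is a constant-coefficient integer linear recurrence: all coefficient polynomials are
constant, the leading one is `1`, and all initial values are integers. -/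
def ConstInt (x : Input) : Prop :=
  (∀ p ∈ x.1, p.length ≤ 1) ∧ x.1.getD x.order [] = [1] ∧ ∀ r ∈ x.2, r.2 = 0

/-- The log-concavity operator `a_n ↦ a_n ^ 2 - a_{n-1} a_{n+1}`, with `a_{-1} = 0`. -/
def L (b : ℕ → ℚ) (m : ℕ) : ℚ := b m ^ 2 - (if m = 0 then 0 else b (m - 1)) * b (m + 1)

/-- `a` is infinitely log-concave. -/
def InfLogConcave (a : ℕ → ℚ) : Prop := ∀ i n : ℕ, 0 ≤ L^[i] a n

/-- `u` is the integer linear recurrence sequence with initial values `v_0, …, v_{d-1}` and
`u_{n+d} = c_0 u_n + … + c_{d-1} u_{n+d-1}` for all `n`, where `d` is the length of `c`. -/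
def IsLRS (c v : List ℤ) (u : ℕ → ℤ) : Prop :=
  (∀ k < c.length, u k = v.getD k 0) ∧
  ∀ n, u (n + c.length) = ∑ j ∈ Finset.range c.length, c.getD j 0 * u (n + j)

/-- The reduction. -/
def red (q : List ℤ × List ℤ) : Input :=
  (q.1.flatMap (fun z => [[-z], [], []]) ++ [[1]],
   q.2.flatMap (fun z => [(z, 0), (0, 0), (0, 0)]))

theorem int_neg : Primrec (fun z : ℤ => -z) := by
  refine Primrec.encode_iff.1 ?_
  have h : Primrec (fun z : ℤ => if (Encodable.encode z) % 2 = 0 then (Encodable.encode z) - 1
      else Encodable.encode z + 1) :=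
    Primrec.ite (Primrec.eq.comp (Primrec.nat_mod.comp Primrec.encode (Primrec.const 2))
      (Primrec.const 0)) (Primrec.nat_sub.comp Primrec.encode (Primrec.const 1))
      (Primrec.succ.comp Primrec.encode)
  refine h.of_eq ?_
  intro z
  have e1 : ∀ n : ℕ, Encodable.encode (Int.ofNat n) = 2 * n := fun n => rfl
  have e2 : ∀ n : ℕ, Encodable.encode (Int.negSucc n) = 2 * n + 1 := fun n => rfl
  cases z with
  | ofNat n =>
    cases n with
    | zero => rfl
    | succ n =>
      have e3 : -(Int.ofNat (n + 1)) = Int.negSucc n := rfl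
      rw [e3, e2, e1]
      split_ifs <;> omega
  | negSucc n =>
    have e3 : -(Int.negSucc n) = Int.ofNat (n + 1) := rfl
    rw [e3, e2, e1]
    split_ifs <;> omega

theorem red_primrec : Primrec red := by
  unfold red
  refine Primrec.pair ?_ ?_
  · refine Primrec.list_append.comp ?_ (Primrec.const _)
    refine Primrec.list_flatMap Primrec.fst ?_
    exact (Primrec.list_cons.comp
      (Primrec.list_cons.comp (int_neg.comp Primrec.snd) (Primrec.const []))
      (Primrec.const [[], []])).to₂
  · refine Primrec.list_flatMap Primrec.snd ?_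
    exact (Primrec.list_cons.comp
      (Primrec.pair Primrec.snd (Primrec.const 0))
      (Primrec.const [(0, 0), (0, 0)])).to₂

section lists

variable {α β : Type*} (g0 g1 g2 : α → β)

theorem length_flat (l : List α) :
    (l.flatMap (fun z => [g0 z, g1 z, g2 z])).length = 3 * l.length := by
  induction l with
  | nil => rfl
  | cons a l ih => simp only [List.flatMap_cons, List.length_append, ih, List.length_cons,
      List.length_nil]; omega

theorem getD_flat0 (l : List α) (e : β) (i : ℕ) :
    (l.flatMap (fun z => [g0 z, g1 z, g2 z])).getD (3 * i) e = (l.map g0).getD i e := by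
  induction l generalizing i with
  | nil => rfl
  | cons a l ih =>
    cases i with
    | zero => rfl
    | succ i =>
      have h : 3 * (i + 1) = 3 * i + 1 + 1 + 1 := by ring
      rw [h, List.flatMap_cons]
      simpa using ih i

theorem getD_flat1 (l : List α) (e : β) (i : ℕ) :
    (l.flatMap (fun z => [g0 z, g1 z, g2 z])).getD (3 * i + 1) e = (l.map g1).getD i e := by
  induction l generalizing i with
  | nil => rfl
  | cons a l ih =>
    cases i with
    | zero => rfl
    | succ i =>
      have h : 3 * (i + 1) + 1 = (3 * i + 1) + 1 + 1 + 1 := by ring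
      rw [h, List.flatMap_cons]
      simpa using ih i

theorem getD_flat2 (l : List α) (e : β) (i : ℕ) :
    (l.flatMap (fun z => [g0 z, g1 z, g2 z])).getD (3 * i + 2) e = (l.map g2).getD i e := by
  induction l generalizing i with
  | nil => rfl
  | cons a l ih =>
    cases i with
    | zero => rfl
    | succ i =>
      have h : 3 * (i + 1) + 2 = (3 * i + 2) + 1 + 1 + 1 := by ring
      rw [h, List.flatMap_cons]
      simpa using ih i

end lists

theorem sum_three (f : ℕ → ℚ) (d : ℕ) :
    ∑ j ∈ Finset.range (3 * d), f j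
      = ∑ i ∈ Finset.range d, (f (3 * i) + f (3 * i + 1) + f (3 * i + 2)) := by
  induction d with
  | zero => simp
  | succ d ih =>
    have h : 3 * (d + 1) = 3 * d + 1 + 1 + 1 := by ring
    rw [h, Finset.sum_range_succ, Finset.sum_range_succ, Finset.sum_range_succ, ih,
      Finset.sum_range_succ]
    ring

/-- The interleaving of `u` with two zero sequences. -/
def inter (u : ℕ → ℤ) (m : ℕ) : ℚ := if m % 3 = 0 then (u (m / 3) : ℚ) else 0


theorem evalAt_nil (n : ℕ) : evalAt [] n = 0 := rfl

theorem evalAt_single (z : ℤ) (n : ℕ) : evalAt [z] n = z := by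
  simp [evalAt]

theorem length_red1 (q : List ℤ × List ℤ) : (red q).1.length = 3 * q.1.length + 1 := by
  have h := length_flat (fun z : ℤ => [-z]) (fun _ => ([] : List ℤ)) (fun _ => ([] : List ℤ)) q.1
  simp only [red, List.length_append, List.length_cons, List.length_nil]
  omega

theorem length_red2 (q : List ℤ × List ℤ) : (red q).2.length = 3 * q.2.length :=
  length_flat (fun z : ℤ => ((z, 0) : ℤ × ℕ)) (fun _ => (0, 0)) (fun _ => (0, 0)) q.2

theorem getD_last (q : List ℤ × List ℤ) : (red q).1.getD (3 * q.1.length) [] = [1] := by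
  have h := length_flat (fun z : ℤ => [-z]) (fun _ => ([] : List ℤ)) (fun _ => ([] : List ℤ)) q.1
  simp only [red]
  rw [List.getD_append_right _ _ _ _ (le_of_eq h), h, Nat.sub_self]
  rfl

theorem map_nil_getD (l : List ℤ) (i : ℕ) :
    (l.map (fun _ => ([] : List ℤ))).getD i [] = [] := by
  induction l generalizing i with
  | nil => rfl
  | cons a l ih =>
    cases i with
    | zero => rfl
    | succ i => simp

theorem map_neg_getD (l : List ℤ) (i : ℕ) (hi : i < l.length) :
    (l.map (fun z => [-z])).getD i [] = [-(l.getD i 0)] := by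
  induction l generalizing i with
  | nil => simp at hi
  | cons a l ih =>
    cases i with
    | zero => rfl
    | succ i => simpa using ih i (by simpa using hi)

theorem rec_iff (q : List ℤ × List ℤ) (a : ℕ → ℚ) (n : ℕ) :
    ∑ j ∈ Finset.range (red q).1.length, evalAt ((red q).1.getD j []) n * a (n + j)
      = a (n + 3 * q.1.length)
        - ∑ i ∈ Finset.range q.1.length, (q.1.getD i 0 : ℚ) * a (n + 3 * i) := by
  have hl := length_flat (fun z : ℤ => [-z]) (fun _ => ([] : List ℤ)) (fun _ => ([] : List ℤ)) q.1
  rw [length_red1, Finset.sum_range_succ, getD_last, evalAt_single, sum_three]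
  have h : ∀ i ∈ Finset.range q.1.length,
      (evalAt ((red q).1.getD (3 * i) []) n * a (n + 3 * i)
        + evalAt ((red q).1.getD (3 * i + 1) []) n * a (n + (3 * i + 1))
        + evalAt ((red q).1.getD (3 * i + 2) []) n * a (n + (3 * i + 2)))
      = -((q.1.getD i 0 : ℚ) * a (n + 3 * i)) := by
    intro i hi
    have hi' : i < q.1.length := Finset.mem_range.1 hi
    have k0 : (red q).1.getD (3 * i) [] = [-(q.1.getD i 0)] := by
      simp only [red]
      rw [List.getD_append _ _ _ _ (by omega), getD_flat0 (fun z : ℤ => [-z]), map_neg_getD _ _ hi']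
    have k1 : (red q).1.getD (3 * i + 1) [] = [] := by
      simp only [red]
      rw [List.getD_append _ _ _ _ (by omega),
        getD_flat1 (fun z : ℤ => [-z]) (fun _ => ([] : List ℤ)), map_nil_getD]
    have k2 : (red q).1.getD (3 * i + 2) [] = [] := by
      simp only [red]
      rw [List.getD_append _ _ _ _ (by omega),
        getD_flat2 (fun z : ℤ => [-z]) (fun _ => ([] : List ℤ)) (fun _ => ([] : List ℤ)),
        map_nil_getD]
    rw [k0, k1, k2, evalAt_nil, evalAt_single]
    push_cast
    ring
  rw [Finset.sum_congr rfl h, Finset.sum_neg_distrib]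
  push_cast
  ring

theorem map_const_getD (l : List ℤ) (i : ℕ) :
    (l.map (fun _ => ((0, 0) : ℤ × ℕ))).getD i (0, 0) = (0, 0) := by
  induction l generalizing i with
  | nil => rfl
  | cons a l ih =>
    cases i with
    | zero => rfl
    | succ i => simpa using ih i

theorem map_pair_getD (l : List ℤ) (i : ℕ) :
    (l.map (fun z => ((z, 0) : ℤ × ℕ))).getD i (0, 0) = (l.getD i 0, 0) := by
  induction l generalizing i with
  | nil => rfl
  | cons a l ih =>
    cases i with
    | zero => rfl
    | succ i => simpa using ih i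

theorem init0 (q : List ℤ × List ℤ) (i : ℕ) : (red q).2.getD (3 * i) (0, 0) = (q.2.getD i 0, 0) := by
  simp only [red]
  rw [getD_flat0 (fun z : ℤ => ((z, 0) : ℤ × ℕ)), map_pair_getD]

theorem init1 (q : List ℤ × List ℤ) (i : ℕ) : (red q).2.getD (3 * i + 1) (0, 0) = (0, 0) := by
  simp only [red]
  rw [getD_flat1 (fun z : ℤ => ((z, 0) : ℤ × ℕ)) (fun _ => ((0, 0) : ℤ × ℕ)), map_const_getD]

theorem init2 (q : List ℤ × List ℤ) (i : ℕ) : (red q).2.getD (3 * i + 2) (0, 0) = (0, 0) := by
  simp only [red]
  rw [getD_flat2 (fun z : ℤ => ((z, 0) : ℤ × ℕ)) (fun _ => ((0, 0) : ℤ × ℕ))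
    (fun _ => ((0, 0) : ℤ × ℕ)), map_const_getD]

theorem init_iff (q : List ℤ × List ℤ) (k : ℕ) :
    (((red q).2.getD k (0, 0)).1 : ℚ) / ((((red q).2.getD k (0, 0)).2 : ℚ) + 1)
      = if k % 3 = 0 then ((q.2.getD (k / 3) 0 : ℤ) : ℚ) else 0 := by
  have hk : k = 3 * (k / 3) + k % 3 := (Nat.div_add_mod k 3).symm
  have h3 : k % 3 < 3 := Nat.mod_lt _ (by norm_num)
  generalize k / 3 = i at *
  generalize k % 3 = r at *
  subst hk
  interval_cases r
  · rw [Nat.add_zero, init0]; simp
  · rw [init1]; simp
  · rw [init2]; simp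

theorem describes_inter (c v : List ℤ) (hcv : c.length = v.length) (u : ℕ → ℤ)
    (hu : IsLRS c v u) : Describes (red (c, v)) (inter u) := by
  constructor
  · intro n
    rw [rec_iff]
    show inter u (n + 3 * c.length)
        - ∑ i ∈ Finset.range c.length, (c.getD i 0 : ℚ) * inter u (n + 3 * i) = 0
    by_cases hn : n % 3 = 0
    · obtain ⟨m, rfl⟩ : ∃ m, n = 3 * m := ⟨n / 3, by omega⟩
      have h1 : ∀ i, inter u (3 * m + 3 * i) = (u (m + i) : ℚ) := by
        intro i
        unfold inter
        rw [if_pos (by omega), show (3 * m + 3 * i) / 3 = m + i by omega]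
      rw [h1, hu.2 m, sub_eq_zero]
      push_cast
      exact Finset.sum_congr rfl (fun i _ => by rw [h1 i])
    · have h1 : ∀ i, inter u (n + 3 * i) = 0 := by
        intro i
        unfold inter
        rw [if_neg (by omega)]
      rw [h1, zero_sub, neg_eq_zero]
      exact Finset.sum_eq_zero (fun i _ => by rw [h1 i, mul_zero])
  · intro k hk
    rw [init_iff]
    unfold inter
    split_ifs with h
    · rw [length_red2] at hk
      rw [hu.1 (k / 3) (by simp only at hk; omega)]
    · rfl

theorem describes_unique (c v : List ℤ) (hcv : c.length = v.length) (u : ℕ → ℤ)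
    (hu : IsLRS c v u) (a : ℕ → ℚ) (ha : Describes (red (c, v)) a) : a = inter u := by
  have hb := describes_inter c v hcv u hu
  funext m
  induction m using Nat.strong_induction_on with
  | _ m ih =>
    by_cases hm : m < 3 * v.length
    · rw [ha.2 m (by rw [length_red2]; exact hm), hb.2 m (by rw [length_red2]; exact hm)]
    · obtain ⟨n, rfl⟩ : ∃ n, m = n + 3 * c.length := ⟨m - 3 * c.length, by omega⟩
      have e1 := ha.1 n
      have e2 := hb.1 n
      rw [rec_iff] at e1 e2
      have e3 : ∑ i ∈ Finset.range c.length, (c.getD i 0 : ℚ) * a (n + 3 * i)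
          = ∑ i ∈ Finset.range c.length, (c.getD i 0 : ℚ) * inter u (n + 3 * i) := by
        refine Finset.sum_congr rfl (fun i hi => ?_)
        rw [ih (n + 3 * i) (by have := Finset.mem_range.1 hi; omega)]
      simp only at e1 e2
      rw [e3] at e1
      linarith

theorem proper_red (c v : List ℤ) (hcv : c.length = v.length) : Proper (red (c, v)) := by
  have ho : (red (c, v)).order = 3 * c.length := by
    unfold Input.order
    rw [length_red1]
    rfl
  refine ⟨?_, ?_, ?_⟩
  · intro h
    have := length_red1 (c, v)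
    rw [h] at this
    simp at this
  · intro n
    rw [ho]
    have := getD_last (c, v)
    simp only at this
    rw [this, evalAt_single]
    norm_num
  · rw [ho, length_red2]
    simp only
    omega

theorem L_inter (u : ℕ → ℤ) : L (inter u) = inter (fun n => u n ^ 2) := by
  funext m
  unfold L inter
  rcases (show m % 3 = 0 ∨ m % 3 = 1 ∨ m % 3 = 2 by omega) with h | h | h
  · rw [if_pos h, if_pos h, if_neg (show ¬ (m + 1) % 3 = 0 by omega)]
    push_cast
    ring
  · rw [if_neg (show ¬ m % 3 = 0 by omega), if_neg (show ¬ (m + 1) % 3 = 0 by omega),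
      if_neg (show ¬ m % 3 = 0 by omega)]
    ring
  · rw [if_neg (show ¬ m % 3 = 0 by omega), if_neg (show ¬ m = 0 by omega),
      if_neg (show ¬ (m - 1) % 3 = 0 by omega), if_neg (show ¬ m % 3 = 0 by omega)]
    ring

theorem iter_inter (u : ℕ → ℤ) (i : ℕ) : L^[i] (inter u) = inter (fun n => u n ^ (2 ^ i)) := by
  induction i with
  | zero => simp
  | succ i ih =>
    rw [Function.iterate_succ_apply', ih, L_inter]
    congr 1
    funext n
    rw [← pow_mul, pow_succ]

theorem ilc_iff (u : ℕ → ℤ) : InfLogConcave (inter u) ↔ ∀ n, 0 ≤ u n := by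
  constructor
  · intro h n
    have := h 0 (3 * n)
    simp only [Function.iterate_zero, id_eq, inter] at this
    rw [if_pos (by omega), show 3 * n / 3 = n by omega] at this
    exact_mod_cast this
  · intro h i n
    rw [iter_inter]
    unfold inter
    split_ifs
    · exact_mod_cast pow_nonneg (h _) _
    · exact le_rfl

theorem constInt_red (c v : List ℤ) : ConstInt (red (c, v)) := by
  have ho : (red (c, v)).order = 3 * c.length := by
    unfold Input.order
    rw [length_red1]
    rfl
  refine ⟨?_, ?_, ?_⟩
  · intro p hp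
    simp only [red, List.mem_append, List.mem_flatMap, List.mem_cons, List.not_mem_nil,
      or_false] at hp
    rcases hp with ⟨z, _, rfl | rfl | rfl⟩ | rfl <;> simp
  · rw [ho]
    exact getD_last (c, v)
  · intro r hr
    simp only [red, List.mem_flatMap, List.mem_cons, List.not_mem_nil, or_false] at hr
    rcases hr with ⟨z, _, rfl | rfl | rfl⟩ <;> rfl

/-! ### The reduction for all P-recursive sequences -/

/-- The value at `t` of the polynomial with coefficient list `p`. -/
def evalQ (p : List ℤ) (t : ℚ) : ℚ :=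
  p.foldr (fun (c : ℤ) (acc : ℚ) => (c : ℚ) + t * acc) 0

theorem evalAt_eq (p : List ℤ) (n : ℕ) : evalAt p n = evalQ p n := rfl

def sc1 (q : ℕ) (p : List ℤ) : List ℤ × ℕ :=
  p.foldr (fun c s => ((c * ((q * s.2 : ℕ) : ℤ)) :: s.1, q * s.2)) ([], 1)

theorem sc1_cons (q : ℕ) (c : ℤ) (p : List ℤ) :
    sc1 q (c :: p) = ((c * ((q * (sc1 q p).2 : ℕ) : ℤ)) :: (sc1 q p).1, q * (sc1 q p).2) := rfl

theorem sc1_snd (q : ℕ) (p : List ℤ) : (sc1 q p).2 = q ^ p.length := by
  induction p with
  | nil => rfl
  | cons c p ih => rw [sc1_cons, List.length_cons, pow_succ]; simp only [ih]; ring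

theorem sc1_eval (q : ℕ) (hq : q ≠ 0) (p : List ℤ) (m : ℚ) :
    evalQ (sc1 q p).1 m = (q : ℚ) ^ p.length * evalQ p (m / q) := by
  have hq' : (q : ℚ) ≠ 0 := by exact_mod_cast hq
  induction p with
  | nil => simp [sc1, evalQ]
  | cons c p ih =>
    rw [sc1_cons]
    show ((c * ((q * (sc1 q p).2 : ℕ) : ℤ) : ℤ) : ℚ) + m * evalQ (sc1 q p).1 m
      = (q : ℚ) ^ (p.length + 1) * ((c : ℚ) + m / q * evalQ p (m / q))
    rw [ih, sc1_snd]
    push_cast
    field_simp
    ring

def scale (q R : ℕ) (p : List ℤ) : List ℤ :=
  (sc1 q p).1.map (fun c => c * ((q ^ (R - p.length) : ℕ) : ℤ))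

theorem evalQ_map (k : ℤ) (p : List ℤ) (t : ℚ) :
    evalQ (p.map (fun c => c * k)) t = k * evalQ p t := by
  induction p with
  | nil => simp [evalQ]
  | cons c p ih =>
    show ((c * k : ℤ) : ℚ) + t * evalQ (p.map (fun c => c * k)) t = k * ((c : ℚ) + t * evalQ p t)
    rw [ih]
    push_cast
    ring

theorem scale_eval (q R : ℕ) (hq : q ≠ 0) (p : List ℤ) (hR : p.length ≤ R) (m : ℚ) :
    evalQ (scale q R p) m = (q : ℚ) ^ R * evalQ p (m / q) := by
  unfold scale
  rw [evalQ_map, sc1_eval q hq, ← mul_assoc]
  congr 1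
  push_cast
  rw [← pow_add]
  congr 1
  omega

/-- the sum of the lengths -/
def tot (P : List (List ℤ)) : ℕ := P.foldr (fun p s => p.length + s) 0

theorem le_tot (P : List (List ℤ)) (p : List ℤ) (hp : p ∈ P) : p.length ≤ tot P := by
  induction P with
  | nil => simp at hp
  | cons a P ih =>
    show p.length ≤ a.length + tot P
    rcases List.mem_cons.1 hp with h | h
    · subst h; omega
    · have := ih h; omega

/-- a multiple of all nonzero coefficients -/
def cm (p : List ℤ) : ℕ := p.foldr (fun c s => max c.natAbs 1 * s) 1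

theorem cm_pos (p : List ℤ) : 0 < cm p := by
  induction p with
  | nil => exact one_pos
  | cons c p ih =>
    show 0 < max c.natAbs 1 * cm p
    have : 0 < max c.natAbs 1 := lt_of_lt_of_le one_pos (le_max_right _ _)
    positivity

theorem dvd_cm (p : List ℤ) (c : ℤ) (hc : c ∈ p) (h0 : c ≠ 0) : c.natAbs ∣ cm p := by
  induction p with
  | nil => simp at hc
  | cons a p ih =>
    show c.natAbs ∣ max a.natAbs 1 * cm p
    rcases List.mem_cons.1 hc with h | h
    · subst h
      have : 1 ≤ c.natAbs := Int.natAbs_pos.2 h0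
      rw [max_eq_left this]
      exact dvd_mul_right _ _
    · exact (ih h).mul_left _

open Polynomial in
/-- the polynomial with the coefficient list `p` -/
noncomputable def toPoly (p : List ℤ) : Polynomial ℤ :=
  p.foldr (fun c f => C c + X * f) 0

open Polynomial in
theorem toPoly_cons (c : ℤ) (p : List ℤ) : toPoly (c :: p) = C c + X * toPoly p := rfl

open Polynomial in
theorem aeval_toPoly (p : List ℤ) (t : ℚ) : aeval t (toPoly p) = evalQ p t := by
  induction p with
  | nil => simp [toPoly, evalQ]
  | cons c p ih =>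
    rw [toPoly_cons]
    show _ = (c : ℚ) + t * evalQ p t
    rw [map_add, map_mul, aeval_X, ih]
    simp

open Polynomial in
theorem coeff_toPoly (p : List ℤ) (k : ℕ) : (toPoly p).coeff k = p.getD k 0 := by
  induction p generalizing k with
  | nil => simp [toPoly]
  | cons c p ih =>
    rw [toPoly_cons]
    cases k with
    | zero => simp
    | succ k =>
      rw [coeff_add, coeff_C_succ, zero_add, coeff_X_mul, ih k]
      rfl

theorem lead_dvd (p : List ℤ) (h : toPoly p ≠ 0) :
    (toPoly p).leadingCoeff.natAbs ∣ cm p := by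
  have h0 : (toPoly p).leadingCoeff ≠ 0 := Polynomial.leadingCoeff_ne_zero.2 h
  apply dvd_cm _ _ _ h0
  unfold Polynomial.leadingCoeff at h0 ⊢
  rw [coeff_toPoly] at h0 ⊢
  by_cases hk : (toPoly p).natDegree < p.length
  · rw [List.getD_eq_getElem _ _ hk]
    exact List.getElem_mem hk
  · rw [List.getD_eq_default _ _ (by omega)] at h0
    exact absurd rfl h0

/-- If `p` has no natural zero then `p (m / q)` is not zero for `q = 1 + 2 cm p`. -/
theorem no_root (p : List ℤ) (hp : ∀ n : ℕ, evalQ p n ≠ 0) (m : ℕ) :
    evalQ p ((m : ℚ) / ((1 + 2 * cm p : ℕ) : ℚ)) ≠ 0 := by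
  intro h0
  have hP : toPoly p ≠ 0 := by
    intro h
    apply hp 0
    rw [← aeval_toPoly, h]
    simp
  set q : ℕ := 1 + 2 * cm p with hq
  set r : ℚ := (m : ℚ) / (q : ℚ) with hr
  have hroot : Polynomial.aeval r (toPoly p) = 0 := by rw [aeval_toPoly]; exact h0
  have h1 := den_dvd_of_is_root (A := ℤ) hroot
  have h2 : r.den ∣ (toPoly p).leadingCoeff.natAbs := by
    rw [← Rat.isFractionRingDen]
    exact Int.natAbs_dvd_natAbs.2 h1
  have h3 : r.den ∣ cm p := h2.trans (lead_dvd p hP)
  have h4 : r.den ∣ q := by
    have := Rat.den_dvd (m : ℤ) (q : ℤ)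
    rw [Rat.divInt_eq_div] at this
    have e : (((m : ℤ) : ℚ) / ((q : ℤ) : ℚ)) = r := by rw [hr]; push_cast; rfl
    rw [e] at this
    exact_mod_cast this
  have h5 : r.den = 1 := by
    have : r.den ∣ 1 := by
      have k := (Nat.dvd_add_left (h3.mul_left 2)).1 (by rw [hq] at h4; exact h4)
      exact k
    exact Nat.dvd_one.1 this
  have h6 : 0 ≤ r.num := Rat.num_nonneg.2 (by rw [hr]; positivity)
  apply hp r.num.toNat
  have e : ((r.num.toNat : ℕ) : ℚ) = r := by
    have k : ((r.num.toNat : ℕ) : ℤ) = r.num := Int.toNat_of_nonneg h6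
    have k2 : ((r.num : ℤ) : ℚ) = r := (Rat.den_eq_one_iff r).1 h5
    rw [← k2]
    exact_mod_cast congrArg (Int.cast : ℤ → ℚ) k
  rw [e]
  exact h0


/-! blocks -/

section blocks

variable {β : Type*}

def rep (n : ℕ) (e : β) : List β := (List.range n).map (fun _ => e)

theorem rep_getD (n : ℕ) (e : β) (r : ℕ) : (rep n e).getD r e = e := by
  unfold rep
  by_cases h : r < n
  · rw [List.getD_eq_getElem _ _ (by simpa using h)]
    simp
  · rw [List.getD_eq_default _ _ (by simpa using h)]

def blk (q d : ℕ) (g : ℕ → β) (e : β) : List β :=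
  (List.range d).flatMap (fun i => g i :: rep (q - 1) e)

theorem blk_succ (q d : ℕ) (g : ℕ → β) (e : β) :
    blk q (d + 1) g e = blk q d g e ++ (g d :: rep (q - 1) e) := by
  unfold blk
  rw [List.range_succ, List.flatMap_append]
  simp

theorem blk_length (q d : ℕ) (hq : 1 ≤ q) (g : ℕ → β) (e : β) :
    (blk q d g e).length = q * d := by
  induction d with
  | zero => simp [blk]
  | succ d ih =>
    rw [blk_succ, List.length_append, ih, List.length_cons]
    have : (rep (q - 1) e).length = q - 1 := by simp [rep]
    rw [this, Nat.mul_succ]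
    omega

theorem blk_getD (q d : ℕ) (hq : 1 ≤ q) (g : ℕ → β) (e : β) (i r : ℕ) (hi : i < d)
    (hr : r < q) : (blk q d g e).getD (q * i + r) e = if r = 0 then g i else e := by
  induction d with
  | zero => omega
  | succ d ih =>
    rw [blk_succ]
    have hl := blk_length q d hq g e
    rcases Nat.lt_or_ge i d with h | h
    · have : q * i + r < q * d := by
        have : q * (i + 1) ≤ q * d := Nat.mul_le_mul_left q h
        rw [Nat.mul_succ] at this
        omega
      rw [List.getD_append _ _ _ _ (by omega), ih h]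
    · have e1 : i = d := by omega
      subst e1
      rw [List.getD_append_right _ _ _ _ (by omega), hl, Nat.add_sub_cancel_left]
      cases r with
      | zero => simp
      | succ r =>
        rw [if_neg (by omega), List.getD_cons_succ]
        exact rep_getD _ _ _

end blocks

theorem sum_blocks (q : ℕ) (hq : 1 ≤ q) (F : ℕ → ℚ) (d : ℕ)
    (h : ∀ i < d, ∀ r < q, r ≠ 0 → F (q * i + r) = 0) :
    ∑ j ∈ Finset.range (q * d), F j = ∑ i ∈ Finset.range d, F (q * i) := by
  induction d with
  | zero => simp
  | succ d ih =>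
    rw [Nat.mul_succ, Finset.sum_range_add, ih (fun i hi => h i (by omega)),
      Finset.sum_range_succ]
    congr 1
    rw [Finset.sum_eq_single_of_mem 0 (Finset.mem_range.2 hq)]
    · rw [Nat.add_zero]
    · intro r hr h0
      exact h d (by omega) r (Finset.mem_range.1 hr) h0

/-- `q` -/
def qq (x : Input) : ℕ := 1 + 2 * cm (x.1.getD (x.1.length - 1) [])

theorem qq_ge (x : Input) : 3 ≤ qq x := by
  have := cm_pos (x.1.getD (x.1.length - 1) [])
  unfold qq
  omega

/-- The reduction for P-recursive sequences. -/
def redP (x : Input) : Input :=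
  (blk (qq x) (x.1.length - 1) (fun i => scale (qq x) (tot x.1) (x.1.getD i [])) [] ++
      [scale (qq x) (tot x.1) (x.1.getD (x.1.length - 1) [])],
   blk (qq x) (x.1.length - 1) (fun i => x.2.getD i (0, 0)) (0, 0))

/-- The interleaving of `a` with `q - 1` zero sequences. -/
def interP (q : ℕ) (a : ℕ → ℚ) (m : ℕ) : ℚ := if q ∣ m then a (m / q) else 0

theorem redP_len1 (x : Input) : (redP x).1.length = qq x * (x.1.length - 1) + 1 := by
  unfold redP
  rw [List.length_append, blk_length _ _ (by have := qq_ge x; omega)]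
  rfl

theorem redP_len2 (x : Input) : (redP x).2.length = qq x * (x.1.length - 1) :=
  blk_length _ _ (by have := qq_ge x; omega) _ _

theorem redP_last (x : Input) : (redP x).1.getD (qq x * (x.1.length - 1)) []
    = scale (qq x) (tot x.1) (x.1.getD (x.1.length - 1) []) := by
  have hl := blk_length (qq x) (x.1.length - 1) (by have := qq_ge x; omega)
    (fun i => scale (qq x) (tot x.1) (x.1.getD i [])) []
  unfold redP
  rw [List.getD_append_right _ _ _ _ (by omega), hl, Nat.sub_self]
  rfl

theorem getD_len_le (x : Input) (i : ℕ) : (x.1.getD i []).length ≤ tot x.1 := by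
  by_cases h : i < x.1.length
  · rw [List.getD_eq_getElem _ _ h]
    exact le_tot _ _ (List.getElem_mem h)
  · rw [List.getD_eq_default _ _ (by omega)]
    simp

theorem recP (x : Input) (hx : x.1 ≠ []) (b : ℕ → ℚ) (m : ℕ) :
    ∑ j ∈ Finset.range (redP x).1.length, evalAt ((redP x).1.getD j []) m * b (m + j)
      = (qq x : ℚ) ^ tot x.1 * ∑ i ∈ Finset.range x.1.length,
        evalQ (x.1.getD i []) ((m : ℚ) / (qq x : ℚ)) * b (m + qq x * i) := by
  have hq := qq_ge x
  have hl := blk_length (qq x) (x.1.length - 1) (by omega)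
    (fun i => scale (qq x) (tot x.1) (x.1.getD i [])) []
  have hx' : x.1.length = (x.1.length - 1) + 1 := by
    have : x.1.length ≠ 0 := by simpa using hx
    omega
  have hev : ∀ i, evalAt (scale (qq x) (tot x.1) (x.1.getD i [])) m
      = (qq x : ℚ) ^ tot x.1 * evalQ (x.1.getD i []) ((m : ℚ) / (qq x : ℚ)) := by
    intro i
    rw [evalAt_eq, scale_eval _ _ (by omega) _ (getD_len_le x i)]
  rw [redP_len1, Finset.sum_range_succ, redP_last, sum_blocks (qq x) (by omega)]
  · have h1 : ∀ i ∈ Finset.range (x.1.length - 1),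
        evalAt ((redP x).1.getD (qq x * i) []) m * b (m + qq x * i)
        = (qq x : ℚ) ^ tot x.1 * (evalQ (x.1.getD i []) ((m : ℚ) / (qq x : ℚ))
          * b (m + qq x * i)) := by
      intro i hi
      have hi' := Finset.mem_range.1 hi
      have k := blk_getD (qq x) (x.1.length - 1) (by omega)
        (fun i => scale (qq x) (tot x.1) (x.1.getD i [])) [] i 0 hi' (by omega)
      rw [Nat.add_zero, if_pos rfl] at k
      have k2 : (redP x).1.getD (qq x * i) [] = scale (qq x) (tot x.1) (x.1.getD i []) := by
        unfold redP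
        rw [List.getD_append _ _ _ _ (by
          rw [hl]; exact Nat.mul_lt_mul_of_pos_left hi' (by omega)), k]
      rw [k2, hev, mul_assoc]
    rw [Finset.sum_congr rfl h1, hev, ← Finset.mul_sum, mul_assoc, ← mul_add]
    congr 1
    conv_rhs => rw [hx', Finset.sum_range_succ]
  · intro i hi r hr h0
    have k := blk_getD (qq x) (x.1.length - 1) (by omega)
      (fun i => scale (qq x) (tot x.1) (x.1.getD i [])) [] i r hi hr
    rw [if_neg h0] at k
    have k2 : (redP x).1.getD (qq x * i + r) [] = [] := by
      unfold redP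
      rw [List.getD_append _ _ _ _ (by
        rw [hl]
        have : qq x * (i + 1) ≤ qq x * (x.1.length - 1) := Nat.mul_le_mul_left _ hi
        rw [Nat.mul_succ] at this
        omega), k]
    rw [k2]
    show evalAt [] m * _ = 0
    rw [evalAt_nil, zero_mul]


theorem describesP (x : Input) (hx : Proper x) (a : ℕ → ℚ) (ha : Describes x a) :
    Describes (redP x) (interP (qq x) a) := by
  have hq := qq_ge x
  have hq0 : (qq x : ℚ) ≠ 0 := by
    have : qq x ≠ 0 := by omega
    exact_mod_cast this
  constructor
  · intro m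
    rw [recP x hx.1]
    by_cases hm : qq x ∣ m
    · obtain ⟨n, rfl⟩ := hm
      have h1 : ((qq x * n : ℕ) : ℚ) / (qq x : ℚ) = (n : ℚ) := by
        push_cast
        field_simp
      have h2 : ∀ i ∈ Finset.range x.1.length,
          evalQ (x.1.getD i []) (((qq x * n : ℕ) : ℚ) / (qq x : ℚ))
            * interP (qq x) a (qq x * n + qq x * i)
          = evalAt (x.1.getD i []) n * a (n + i) := by
        intro i _
        rw [h1, ← Nat.mul_add]
        unfold interP
        rw [if_pos (dvd_mul_right _ _), Nat.mul_div_cancel_left _ (by omega)]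
        rfl
      rw [Finset.sum_congr rfl h2, ha.1 n, mul_zero]
    · rw [Finset.sum_eq_zero, mul_zero]
      intro i _
      unfold interP
      rw [if_neg, mul_zero]
      intro h
      exact hm ((Nat.dvd_add_left (dvd_mul_right _ _)).1 h)
  · intro k hk
    rw [redP_len2] at hk
    have hi : k / qq x < x.1.length - 1 := Nat.div_lt_of_lt_mul hk
    have hr : k % qq x < qq x := Nat.mod_lt _ (by omega)
    have k1 := blk_getD (qq x) (x.1.length - 1) (by omega)
      (fun i => x.2.getD i (0, 0)) (0, 0) (k / qq x) (k % qq x) hi hr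
    rw [Nat.div_add_mod] at k1
    have k2 : (redP x).2.getD k (0, 0)
        = if k % qq x = 0 then x.2.getD (k / qq x) (0, 0) else (0, 0) := k1
    rw [k2]
    unfold interP
    by_cases h0 : k % qq x = 0
    · rw [if_pos h0, if_pos (Nat.dvd_of_mod_eq_zero h0)]
      have h3 := hx.2.2
      unfold Input.order at h3
      exact ha.2 (k / qq x) (by omega)
    · rw [if_neg h0, if_neg (fun h => h0 (Nat.mod_eq_zero_of_dvd h))]
      simp

theorem proper_unique (x : Input) (hx : Proper x) (a b : ℕ → ℚ) (ha : Describes x a)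
    (hb : Describes x b) : a = b := by
  obtain ⟨h1, h2, h3⟩ := hx
  have hx' : x.1.length = x.order + 1 := by
    have : x.1.length ≠ 0 := by simpa using h1
    unfold Input.order
    omega
  funext m
  induction m using Nat.strong_induction_on with
  | _ m ih =>
    by_cases hm : m < x.2.length
    · rw [ha.2 m hm, hb.2 m hm]
    · obtain ⟨n, rfl⟩ : ∃ n, m = n + x.order := ⟨m - x.order, by omega⟩
      have e1 := ha.1 n
      have e2 := hb.1 n
      rw [hx', Finset.sum_range_succ] at e1 e2
      have e3 : ∑ j ∈ Finset.range x.order, evalAt (x.1.getD j []) n * a (n + j)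
          = ∑ j ∈ Finset.range x.order, evalAt (x.1.getD j []) n * b (n + j) :=
        Finset.sum_congr rfl (fun j hj => by
          rw [ih (n + j) (by have := Finset.mem_range.1 hj; omega)])
      rw [e3] at e1
      have e4 : evalAt (x.1.getD x.order []) n * a (n + x.order)
          = evalAt (x.1.getD x.order []) n * b (n + x.order) := by linarith
      exact mul_left_cancel₀ (h2 n) e4

theorem proper_redP (x : Input) (hx : Proper x) : Proper (redP x) := by
  have hq := qq_ge x
  have ho : (redP x).order = qq x * (x.1.length - 1) := by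
    unfold Input.order
    rw [redP_len1]
    rfl
  refine ⟨?_, ?_, ?_⟩
  · intro h
    have := redP_len1 x
    rw [h] at this
    simp at this
  · intro m
    rw [ho, redP_last, evalAt_eq, scale_eval _ _ (by omega) _ (getD_len_le x _)]
    refine mul_ne_zero (pow_ne_zero _ ?_) ?_
    · have : qq x ≠ 0 := by omega
      exact_mod_cast this
    · exact no_root _ (fun n => hx.2.1 n) m
  · rw [ho, redP_len2]

theorem L_interP (q : ℕ) (hq : 3 ≤ q) (a : ℕ → ℚ) :
    L (interP q a) = interP q (fun n => a n ^ 2) := by
  funext m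
  unfold L interP
  by_cases h : q ∣ m
  · have h1 : ¬ q ∣ m + 1 := by
      intro h2
      have := (Nat.dvd_add_right h).1 h2
      have := Nat.dvd_one.1 this
      omega
    rw [if_pos h, if_pos h, if_neg h1]
    ring
  · rw [if_neg h, if_neg h]
    have hm : m ≠ 0 := by rintro rfl; exact h (dvd_zero _)
    rw [if_neg hm]
    by_cases h1 : q ∣ m - 1
    · have h2 : ¬ q ∣ m + 1 := by
        intro h2
        have h3 : m + 1 = (m - 1) + 2 := by omega
        rw [h3] at h2
        have := (Nat.dvd_add_right h1).1 h2
        have := Nat.le_of_dvd (by norm_num) this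
        omega
      rw [if_neg h2]
      ring
    · rw [if_neg h1]
      ring

theorem iter_interP (q : ℕ) (hq : 3 ≤ q) (a : ℕ → ℚ) (i : ℕ) :
    L^[i] (interP q a) = interP q (fun n => a n ^ (2 ^ i)) := by
  induction i with
  | zero => simp
  | succ i ih =>
    rw [Function.iterate_succ_apply', ih, L_interP q hq]
    congr 1
    funext n
    rw [← pow_mul, pow_succ]

theorem ilcP_iff (q : ℕ) (hq : 3 ≤ q) (a : ℕ → ℚ) :
    InfLogConcave (interP q a) ↔ ∀ n, 0 ≤ a n := by
  constructor
  · intro h n
    have := h 0 (q * n)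
    simp only [Function.iterate_zero, id_eq, interP] at this
    rwa [if_pos (dvd_mul_right _ _), Nat.mul_div_cancel_left _ (by omega)] at this
  · intro h i n
    rw [iter_interP q hq]
    unfold interP
    split_ifs
    · exact pow_nonneg (h _) _
    · exact le_rfl

/-! primitive recursiveness -/

open Pool.Agent.Y926.Ent (prim_mul prim_natAbs prim_mkInt mkInt)

theorem prim_cast : Primrec (fun n : ℕ => (n : ℤ)) := by
  have h : Primrec (fun n : ℕ => mkInt (false, n)) :=
    prim_mkInt.comp (Primrec.pair (Primrec.const false) Primrec.id)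
  exact h.of_eq fun n => rfl

theorem prim_pow : Primrec₂ (fun a b : ℕ => a ^ b) := by
  have h : Primrec₂ (fun (a b : ℕ) => Nat.rec (motive := fun _ => ℕ) 1 (fun _ ih => ih * a) b) := by
    exact Primrec.nat_rec (f := fun _ : ℕ => (1 : ℕ)) (g := fun (a : ℕ) (p : ℕ × ℕ) => p.2 * a)
      (Primrec.const 1) (Primrec.nat_mul.comp (Primrec.snd.comp Primrec.snd) Primrec.fst)
  refine h.of_eq ?_
  intro a b
  induction b with
  | zero => rfl
  | succ n ih => rw [pow_succ, ← ih]

theorem prim_rep {α β : Type*} [Primcodable α] [Primcodable β] {f : α → ℕ} (hf : Primrec f)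
    (e : β) : Primrec (fun a => rep (f a) e) :=
  Primrec.list_map (Primrec.list_range.comp hf) (Primrec.const e).to₂

theorem prim_cm : Primrec cm := by
  have h1 : Primrec₂ (fun (_ : List ℤ) (s : ℤ × ℕ) => max s.1.natAbs 1 * s.2) :=
    (Primrec.nat_mul.comp
      (Primrec.nat_max.comp (prim_natAbs.comp (Primrec.fst.comp Primrec.snd)) (Primrec.const 1))
      (Primrec.snd.comp Primrec.snd)).to₂
  exact Primrec.list_foldr (f := fun p : List ℤ => p) (g := fun _ : List ℤ => (1 : ℕ))
    Primrec.id (Primrec.const 1) h1

theorem prim_tot : Primrec tot := by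
  have h1 : Primrec₂ (fun (_ : List (List ℤ)) (s : List ℤ × ℕ) => s.1.length + s.2) :=
    (Primrec.nat_add.comp
      (Primrec.list_length.comp (Primrec.fst.comp Primrec.snd))
      (Primrec.snd.comp Primrec.snd)).to₂
  exact Primrec.list_foldr (f := fun P : List (List ℤ) => P) (g := fun _ : List (List ℤ) => (0 : ℕ))
    Primrec.id (Primrec.const 0) h1

theorem prim_ord : Primrec (fun x : Input => x.1.length - 1) :=
  Primrec.nat_sub.comp (Primrec.list_length.comp Primrec.fst) (Primrec.const 1)

theorem prim_qq : Primrec qq := by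
  unfold qq
  exact Primrec.nat_add.comp (Primrec.const 1) (Primrec.nat_mul.comp (Primrec.const 2)
    (prim_cm.comp ((Primrec.list_getD []).comp Primrec.fst prim_ord)))

theorem prim_sc1 : Primrec₂ sc1 := by
  unfold sc1
  refine Primrec.list_foldr (f := fun a : ℕ × List ℤ => a.2) (g := fun _ => (([], 1) : List ℤ × ℕ))
    (h := fun a s => ((s.1 * ((a.1 * s.2.2 : ℕ) : ℤ)) :: s.2.1, a.1 * s.2.2))
    Primrec.snd (Primrec.const _) ?_
  have hm : Primrec (fun p : (ℕ × List ℤ) × (ℤ × (List ℤ × ℕ)) => p.1.1 * p.2.2.2) :=
    Primrec.nat_mul.comp (Primrec.fst.comp Primrec.fst)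
      (Primrec.snd.comp (Primrec.snd.comp Primrec.snd))
  exact (Primrec.pair (Primrec.list_cons.comp
    (prim_mul.comp (Primrec.fst.comp Primrec.snd) (prim_cast.comp hm))
    (Primrec.fst.comp (Primrec.snd.comp Primrec.snd))) hm).to₂

theorem prim_scale {α : Type*} [Primcodable α] {q R : α → ℕ} {p : α → List ℤ} (hq : Primrec q)
    (hR : Primrec R) (hp : Primrec p) : Primrec (fun a => scale (q a) (R a) (p a)) := by
  unfold scale
  refine Primrec.list_map (Primrec.fst.comp (prim_sc1.comp hq hp)) ?_
  exact (prim_mul.comp Primrec.snd (prim_cast.comp (prim_pow.comp (hq.comp Primrec.fst)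
    (Primrec.nat_sub.comp (hR.comp Primrec.fst)
      (Primrec.list_length.comp (hp.comp Primrec.fst)))))).to₂

theorem prim_blk {α β : Type*} [Primcodable α] [Primcodable β] {q d : α → ℕ} {g : α → ℕ → β}
    (hq : Primrec q) (hd : Primrec d) (hg : Primrec₂ g) (e : β) :
    Primrec (fun a => blk (q a) (d a) (g a) e) := by
  unfold blk
  refine Primrec.list_flatMap (Primrec.list_range.comp hd) ?_
  exact (Primrec.list_cons.comp hg
    ((prim_rep (Primrec.nat_sub.comp hq (Primrec.const 1)) e).comp Primrec.fst)).to₂

theorem redP_primrec : Primrec redP := by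
  unfold redP
  refine Primrec.pair (Primrec.list_append.comp (prim_blk prim_qq prim_ord ?_ []) ?_)
    (prim_blk prim_qq prim_ord ?_ (0, 0))
  · exact (prim_scale (prim_qq.comp Primrec.fst) (prim_tot.comp (Primrec.fst.comp Primrec.fst))
      ((Primrec.list_getD []).comp (Primrec.fst.comp Primrec.fst) Primrec.snd)).to₂
  · exact Primrec.list_cons.comp (prim_scale prim_qq (prim_tot.comp Primrec.fst)
      ((Primrec.list_getD []).comp Primrec.fst prim_ord)) (Primrec.const [])
  · exact ((Primrec.list_getD (0, 0)).comp (Primrec.snd.comp Primrec.fst) Primrec.snd).to₂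

/-- (1) There is a primitive recursive map which sends every proper input, of a P-recursive
sequence `a`, to a proper input of exactly one sequence, and this sequence is infinitely
log-concave if and only if all terms of `a` are nonnegative. (2) So an algorithm that decides
infinite log-concavity for proper inputs gives one for the Positivity Problem of P-recursive
sequences. (3) There is a primitive recursive map which sends every integer linear recurrence
sequence `u` to a proper input with constant coefficients, leading coefficient `1` and integer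
initial values, of exactly one sequence, and this sequence is infinitely log-concave if and only
if all terms of `u` are nonnegative. (4) So an algorithm that is right on inputs of that kind
gives one for the Positivity Problem of integer linear recurrence sequences. -/
theorem result :
    (∃ φ : Input → Input, Primrec φ ∧ ∀ x : Input, Proper x → ∀ a : ℕ → ℚ, Describes x a →
      Proper (φ x) ∧
      ∃ b : ℕ → ℚ, Describes (φ x) b ∧ (∀ b', Describes (φ x) b' → b' = b) ∧
        (InfLogConcave b ↔ ∀ n, 0 ≤ a n)) ∧
    ((∃ f : Input → Bool, Computable f ∧ ∀ x : Input, Proper x →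
        (f x = true ↔ ∃ a, Describes x a ∧ InfLogConcave a)) →
      ∃ g : Input → Bool, Computable g ∧
        ∀ x : Input, Proper x → ∀ a : ℕ → ℚ, Describes x a → (g x = true ↔ ∀ n, 0 ≤ a n)) ∧
    (∃ φ : List ℤ × List ℤ → Input, Primrec φ ∧
      ∀ c v : List ℤ, c.length = v.length → ∀ u : ℕ → ℤ, IsLRS c v u →
        Proper (φ (c, v)) ∧ ConstInt (φ (c, v)) ∧
        ∃ a : ℕ → ℚ, Describes (φ (c, v)) a ∧ (∀ a', Describes (φ (c, v)) a' → a' = a) ∧
          (InfLogConcave a ↔ ∀ n, 0 ≤ u n)) ∧
    ((∃ f : Input → Bool, Computable f ∧ ∀ x : Input, Proper x → ConstInt x →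
        (f x = true ↔ ∃ a, Describes x a ∧ InfLogConcave a)) →
      ∃ g : List ℤ × List ℤ → Bool, Computable g ∧
        ∀ c v : List ℤ, c.length = v.length → ∀ u : ℕ → ℤ, IsLRS c v u →
          (g (c, v) = true ↔ ∀ n, 0 ≤ u n)) := by
  refine ⟨?_, ?_, ?_, ?_⟩
  · exact ⟨redP, redP_primrec, fun x hx a ha => ⟨proper_redP x hx, interP (qq x) a,
      describesP x hx a ha, fun b' hb' => proper_unique (redP x) (proper_redP x hx) _ _ hb'
        (describesP x hx a ha), ilcP_iff _ (qq_ge x) a⟩⟩
  · rintro ⟨f, hf, hfx⟩
    refine ⟨fun x => f (redP x), hf.comp redP_primrec.to_comp, fun x hx a ha => ?_⟩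
    rw [hfx _ (proper_redP x hx)]
    constructor
    · rintro ⟨b, hb, hl⟩
      rw [proper_unique (redP x) (proper_redP x hx) _ _ hb (describesP x hx a ha)] at hl
      exact (ilcP_iff _ (qq_ge x) a).1 hl
    · intro h
      exact ⟨_, describesP x hx a ha, (ilcP_iff _ (qq_ge x) a).2 h⟩
  · refine ⟨red, red_primrec, fun c v hcv u hu => ⟨proper_red c v hcv, constInt_red c v, inter u,
      describes_inter c v hcv u hu, fun a' ha' => describes_unique c v hcv u hu a' ha',
      ilc_iff u⟩⟩
  · rintro ⟨f, hf, hfx⟩
    refine ⟨fun q => f (red q), hf.comp red_primrec.to_comp, fun c v hcv u hu => ?_⟩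
    rw [hfx _ (proper_red c v hcv) (constInt_red c v)]
    constructor
    · rintro ⟨a, ha, hl⟩
      rw [describes_unique c v hcv u hu a ha] at hl
      exact (ilc_iff u).1 hl
    · intro h
      exact ⟨inter u, describes_inter c v hcv u hu, (ilc_iff u).2 h⟩

end Pool.Agent.Results.MP_d49380_lc.PositivityReduction
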